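import Pool.Agent.Lib_helper99.Tight

/-!
# Continuous images of `ℝ^κ` in compacta of countable tightness are cosmic
-/

set_option autoImplicit false

namespace Pool.Agent.Results.MP_ed4848_gt.CosmicImages

universe u v

/-- `N` is a network of the space `Z`. -/
def IsNetwork {Z : Type u} [TopologicalSpace Z] (N : Set (Set Z)) : Prop :=
  ∀ (z : Z) (U : Set Z), IsOpen U → z ∈ U → ∃ A ∈ N, z ∈ A ∧ A ⊆ U

/-- A space is cosmic if it has a countable network. -/
def Cosmic (Z : Type u) [TopologicalSpace Z] : Prop :=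
  ∃ N : Set (Set Z), N.Countable ∧ IsNetwork N

/-- Countable tightness. -/
def CountablyTight (K : Type u) [TopologicalSpace K] : Prop :=
  ∀ (A : Set K) (x : K), x ∈ closure A → ∃ B : Set K, B ⊆ A ∧ B.Countable ∧ x ∈ closure B

/-- For every `κ`, every compact Hausdorff space `K` of countable tightness and every continuous
`φ : ℝ^κ → K`, the image of `φ` with the subspace topology is cosmic; moreover `φ` depends on
countably many coordinates only. -/
theorem result : ∀ (κ : Type v) (K : Type u) [TopologicalSpace K] [CompactSpace K] [T2Space K],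
    CountablyTight K → ∀ φ : (κ → ℝ) → K, Continuous φ →
      Cosmic (Set.range φ) ∧
      ∃ B : Set κ, B.Countable ∧ ∀ x y : κ → ℝ, (∀ i ∈ B, x i = y i) → φ x = φ y := by
  intro κ K _ _ _ ht φ hφ
  refine ⟨?_, Pool.Agent.LibHelper99.Tight.depends_countable ht hφ⟩
  obtain ⟨N, hN, hr, hn⟩ := Pool.Agent.LibHelper99.Tight.image_cosmic ht hφ
  refine ⟨(fun A : Set K => (Subtype.val ⁻¹' A : Set (Set.range φ))) '' N, hN.image _, ?_⟩
  rintro ⟨z, hz⟩ U hU hzU
  obtain ⟨V, hV, rfl⟩ := isOpen_induced_iff.1 hU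
  obtain ⟨A, hA, hzA, hAV⟩ := hn z hz V hV hzU
  exact ⟨_, ⟨A, hA, rfl⟩, hzA, Set.preimage_mono hAV⟩

end Pool.Agent.Results.MP_ed4848_gt.CosmicImages
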