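import Mathlib

/-!
# A path in a compactum of countable tightness with non-metrizable image

`K` is the hedgehog over the one-point compactification of a Mrówka-Isbell space: inside
`[0,1]^(ℝ ⊔ (ℕ × ℤ))` let, for `p = (k, j) : ℕ × ℤ`, the vector `e_p` be the indicator of
`{x : ℝ | ⌊k x⌋ = j} ∪ {p}` and for `x : ℝ` let `1_x` be the indicator of `{x}`; then
`K = {t e_p} ∪ {t 1_x}`, `0 ≤ t ≤ 1`. A path runs through all the countably many segments
`[0,1] e_p`, and its image has no countable base at `0`.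
-/

set_option autoImplicit false

namespace Pool.Agent.Results.MP_ed4848_gt.NotMetrizable

open Set Filter Topology

/-- coordinates -/
abbrev I : Type := ℝ ⊕ (ℕ × ℤ)

/-- directions -/
abbrev J : Type := (ℕ × ℤ) ⊕ ℝ

open Classical in
/-- the unit vectors -/
noncomputable def v : J → I → ℝ
  | Sum.inl p, Sum.inl x => if ⌊(p.1 : ℝ) * x⌋ = p.2 then 1 else 0
  | Sum.inl p, Sum.inr q => if q = p then 1 else 0
  | Sum.inr x, Sum.inl y => if x = y then 1 else 0
  | Sum.inr _, Sum.inr _ => 0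

theorem v_zero_or_one (s : J) (i : I) : v s i = 0 ∨ v s i = 1 := by
  rcases s with p | x <;> rcases i with y | q <;> simp only [v]
  · split_ifs <;> simp
  · split_ifs <;> simp
  · split_ifs <;> simp
  · simp

theorem v_nonneg (s : J) (i : I) : 0 ≤ v s i := by
  rcases v_zero_or_one s i with h | h <;> rw [h] <;> norm_num

theorem v_le_one (s : J) (i : I) : v s i ≤ 1 := by
  rcases v_zero_or_one s i with h | h <;> rw [h] <;> norm_num

/-- the base of the cone -/
def K0 : Set (I → ℝ) := {f | f = 0 ∨ ∃ s, f = v s}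

/-- the two floors differ for large `k` -/
theorem floor_ne {x y : ℝ} (hxy : x ≠ y) {k : ℕ} (hk : 1 ≤ k * |x - y|) :
    ⌊(k : ℝ) * x⌋ ≠ ⌊(k : ℝ) * y⌋ := by
  intro h
  have h1 := Int.abs_sub_lt_one_of_floor_eq_floor h
  rw [← mul_sub, abs_mul, Nat.abs_cast] at h1
  linarith

theorem K0_eq : K0 = {f : I → ℝ | (∀ i, f i = 0 ∨ f i = 1) ∧
    (∀ p i, f (Sum.inr p) = 0 ∨ f i = v (Sum.inl p) i) ∧
    (∀ x y : ℝ, x ≠ y → f (Sum.inl x) = 0 ∨ f (Sum.inl y) = 0 ∨
      ∃ k : ℕ, k ≤ ⌊1 / |x - y|⌋₊ ∧ f (Sum.inr (k, ⌊(k : ℝ) * x⌋)) = 1)} := by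
  ext f
  constructor
  · rintro (rfl | ⟨s, rfl⟩)
    · exact ⟨fun i => Or.inl rfl, fun p i => Or.inl rfl, fun x y _ => Or.inl rfl⟩
    · refine ⟨v_zero_or_one s, ?_, ?_⟩
      · intro p i
        rcases s with q | x
        · by_cases h : p = q
          · subst h; right; rfl
          · left; simp [v, h]
        · left; rfl
      · intro x y hxy
        rcases s with q | z
        · by_cases h1 : ⌊(q.1 : ℝ) * x⌋ = q.2
          · by_cases h2 : ⌊(q.1 : ℝ) * y⌋ = q.2
            · right; right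
              refine ⟨q.1, ?_, ?_⟩
              · have h3 : ¬ (1 ≤ (q.1 : ℝ) * |x - y|) := fun h => floor_ne hxy h (h1.trans h2.symm)
                push Not at h3
                have h4 : 0 < |x - y| := abs_pos.2 (sub_ne_zero.2 hxy)
                rw [Nat.le_floor_iff (by positivity), le_div_iff₀ h4]
                exact h3.le
              · rw [h1]
                simp [v]
            · right; left; simp [v, h2]
          · left; simp [v, h1]
        · by_cases h1 : z = x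
          · right; left
            subst h1
            simp [v, hxy]
          · left; simp [v, h1]
  · rintro ⟨h0, h1, h2⟩
    by_cases h : ∃ p, f (Sum.inr p) ≠ 0
    · obtain ⟨p, hp⟩ := h
      right
      exact ⟨Sum.inl p, funext fun i => (h1 p i).resolve_left hp⟩
    · push Not at h
      by_cases h' : ∃ x, f (Sum.inl x) ≠ 0
      · obtain ⟨x, hx⟩ := h'
        right
        refine ⟨Sum.inr x, ?_⟩
        funext i
        rcases i with y | q
        · by_cases hxy : x = y
          · subst hxy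
            simp only [v, if_true]
            exact (h0 _).resolve_left hx
          · simp only [v, if_neg hxy]
            rcases h2 x y hxy with h3 | h3 | ⟨k, _, h3⟩
            · exact absurd h3 hx
            · exact h3
            · rw [h] at h3
              norm_num at h3
        · exact h q
      · push Not at h'
        left
        funext i
        rcases i with y | q
        · exact h' y
        · exact h q

theorem isClosed_K0 : IsClosed K0 := by
  rw [K0_eq]
  have hc : ∀ (i : I) (c : ℝ), IsClosed {f : I → ℝ | f i = c} := fun i c =>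
    isClosed_eq (continuous_apply i) continuous_const
  have e : {f : I → ℝ | (∀ i, f i = 0 ∨ f i = 1) ∧
    (∀ p i, f (Sum.inr p) = 0 ∨ f i = v (Sum.inl p) i) ∧
    (∀ x y : ℝ, x ≠ y → f (Sum.inl x) = 0 ∨ f (Sum.inl y) = 0 ∨
      ∃ k : ℕ, k ≤ ⌊1 / |x - y|⌋₊ ∧ f (Sum.inr (k, ⌊(k : ℝ) * x⌋)) = 1)} =
    (⋂ i, ({f : I → ℝ | f i = 0} ∪ {f : I → ℝ | f i = 1})) ∩
    ((⋂ p, ⋂ i, ({f : I → ℝ | f (Sum.inr p) = 0} ∪ {f : I → ℝ | f i = v (Sum.inl p) i})) ∩
    (⋂ x : ℝ, ⋂ y : ℝ, ⋂ _ : x ≠ y, ({f : I → ℝ | f (Sum.inl x) = 0} ∪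
      ({f : I → ℝ | f (Sum.inl y) = 0} ∪
      ⋃ k ∈ {k : ℕ | k ≤ ⌊1 / |x - y|⌋₊}, {f : I → ℝ | f (Sum.inr (k, ⌊(k : ℝ) * x⌋)) = 1})))) := by
    ext f
    simp only [mem_ofPred_eq, mem_inter_iff, mem_iInter, mem_union, mem_iUnion, exists_prop]
  rw [e]
  refine (isClosed_iInter fun i => (hc _ _).union (hc _ _)).inter
    ((isClosed_iInter fun p => isClosed_iInter fun i => (hc _ _).union (hc _ _)).inter
    (isClosed_iInter fun x => isClosed_iInter fun y => isClosed_iInter fun _ =>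
      (hc _ _).union ((hc _ _).union ?_)))
  exact (Set.finite_le_nat _).isClosed_biUnion (fun k _ => hc _ _)

theorem isCompact_K0 : IsCompact K0 := by
  have h1 : IsCompact (Set.univ.pi fun _ : I => Set.Icc (0 : ℝ) 1) :=
    isCompact_univ_pi fun _ => isCompact_Icc
  refine h1.of_isClosed_subset isClosed_K0 ?_
  rintro f (rfl | ⟨s, rfl⟩)
  · intro i _; simp
  · intro i _; exact ⟨v_nonneg s i, v_le_one s i⟩

/-- the hedgehog -/
def K : Set (I → ℝ) := {f | ∃ t ∈ Icc (0 : ℝ) 1, ∃ s, f = t • v s}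

theorem isCompact_K : IsCompact K := by
  have h : K = (fun q : ℝ × (I → ℝ) => q.1 • q.2) '' (Icc (0 : ℝ) 1 ×ˢ K0) := by
    ext f
    constructor
    · rintro ⟨t, ht, s, rfl⟩
      exact ⟨(t, v s), ⟨ht, Or.inr ⟨s, rfl⟩⟩, rfl⟩
    · rintro ⟨⟨t, g⟩, ⟨ht, hg⟩, rfl⟩
      rcases hg with hg | ⟨s, hg⟩
      · simp only at hg
        subst hg
        exact ⟨0, by simp, Sum.inr 0, by simp⟩
      · simp only at hg
        subst hg
        exact ⟨t, ht, s, rfl⟩
  rw [h]
  exact (isCompact_Icc.prod isCompact_K0).image (by fun_prop)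

/-- A set contained in countably many lines is separable. -/
theorem separable_lines {D : Set J} (hD : D.Countable) {A : Set (I → ℝ)}
    (hA : ∀ f ∈ A, ∃ t : ℝ, ∃ s ∈ D, f = t • v s) :
    ∃ C ⊆ A, C.Countable ∧ A ⊆ closure C := by
  have h1 : ∀ s : J, ∃ c : Set ℝ, c ⊆ {t : ℝ | t • v s ∈ A} ∧ c.Countable ∧
      {t : ℝ | t • v s ∈ A} ⊆ closure c := fun s =>
    (TopologicalSpace.IsSeparable.of_separableSpace {t : ℝ | t • v s ∈ A}).exists_countable_dense_subset
  choose c hc1 hc2 hc3 using h1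
  refine ⟨⋃ s ∈ D, (fun t : ℝ => t • v s) '' c s, ?_, ?_, ?_⟩
  · simp only [iUnion_subset_iff]
    rintro s _ _ ⟨t, ht, rfl⟩
    exact hc1 s ht
  · exact hD.biUnion fun s _ => (hc2 s).image _
  · intro f hf
    obtain ⟨t, s, hs, rfl⟩ := hA f hf
    have h2 : t ∈ closure (c s) := hc3 s hf
    have h3 : t • v s ∈ closure ((fun t : ℝ => t • v s) '' c s) := by
      have hcont : Continuous (fun t : ℝ => t • v s) := by fun_prop
      exact image_closure_subset_closure_image hcont ⟨t, h2, rfl⟩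
    exact closure_mono (subset_biUnion_of_mem (u := fun s => (fun t : ℝ => t • v s) '' c s) hs) h3

theorem countable_dir (i : I) : {s : J | v s i ≠ 0}.Countable := by
  rcases i with y | q
  · refine Set.Countable.mono (s₂ := range Sum.inl ∪ {Sum.inr y}) ?_
      ((countable_range _).union (countable_singleton _))
    rintro (p | x) hs
    · exact Or.inl ⟨p, rfl⟩
    · right
      by_cases h : x = y
      · simp [h]
      · simp [v, h] at hs
  · refine Set.Countable.mono (s₂ := range Sum.inl) ?_ (countable_range _)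
    rintro (p | x) hs
    · exact ⟨p, rfl⟩
    · simp [v] at hs

theorem tight {A : Set (I → ℝ)} (hA : A ⊆ K) {f : I → ℝ} (hf : f ∈ closure A) :
    ∃ C ⊆ A, C.Countable ∧ f ∈ closure C := by
  by_cases h0 : ∃ i, f i ≠ 0
  · obtain ⟨i, hi⟩ := h0
    have hU : IsOpen {g : I → ℝ | g i ≠ 0} := isOpen_ne_fun (continuous_apply i) continuous_const
    have h1 : f ∈ closure ({g : I → ℝ | g i ≠ 0} ∩ A) := hU.inter_closure ⟨hi, hf⟩
    obtain ⟨C, hC1, hC2, hC3⟩ := separable_lines (countable_dir i)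
      (A := {g : I → ℝ | g i ≠ 0} ∩ A) (by
        rintro g ⟨hg, hgA⟩
        obtain ⟨t, ht, s, rfl⟩ := hA hgA
        refine ⟨t, s, ?_, rfl⟩
        intro h
        simp only [mem_ofPred_eq, Pi.smul_apply, smul_eq_mul, h, mul_zero, ne_eq,
          not_true_eq_false] at hg)
    exact ⟨C, hC1.trans inter_subset_right, hC2, closure_minimal hC3 isClosed_closure h1⟩
  · push Not at h0
    have hf0 : f = 0 := funext h0
    by_cases hE : {x : ℝ | ∃ t : ℝ, t • v (Sum.inr x) ∈ A}.Countable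
    · obtain ⟨C, hC1, hC2, hC3⟩ := separable_lines
        (D := range Sum.inl ∪ Sum.inr '' {x : ℝ | ∃ t : ℝ, t • v (Sum.inr x) ∈ A})
        ((countable_range _).union (hE.image _)) (A := A) (by
          intro g hgA
          obtain ⟨t, ht, s, rfl⟩ := hA hgA
          refine ⟨t, s, ?_, rfl⟩
          rcases s with p | x
          · exact Or.inl ⟨p, rfl⟩
          · exact Or.inr ⟨x, ⟨t, hgA⟩, rfl⟩)
      exact ⟨C, hC1, hC2, closure_minimal hC3 isClosed_closure hf⟩
    · have hinf : {x : ℝ | ∃ t : ℝ, t • v (Sum.inr x) ∈ A}.Infinite := fun h => hE h.countable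
      let g := hinf.natEmbedding
      have hg : ∀ k : ℕ, ∃ t : ℝ, t • v (Sum.inr (g k : ℝ)) ∈ A := fun k => (g k).2
      choose t ht using hg
      refine ⟨range fun k => t k • v (Sum.inr (g k : ℝ)), ?_, countable_range _, ?_⟩
      · rintro _ ⟨k, rfl⟩
        exact ht k
      · rw [hf0]
        refine mem_closure_of_tendsto (f := fun k => t k • v (Sum.inr (g k : ℝ))) (b := atTop) ?_
          (Eventually.of_forall fun k => ⟨k, rfl⟩)
        rw [tendsto_pi_nhds]
        rintro (y | q)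
        · refine tendsto_const_nhds.congr' ?_
          have hfin : {k : ℕ | (g k : ℝ) = y}.Finite := by
            refine Set.Subsingleton.finite ?_
            intro a ha b hb
            exact g.injective (Subtype.ext (Eq.trans ha (Eq.symm hb)))
          have hev : ∀ᶠ k in (atTop : Filter ℕ), ¬ ((g k : ℝ) = y) := by
            rw [← Nat.cofinite_eq_atTop]
            exact hfin.compl_mem_cofinite
          filter_upwards [hev] with k hk
          simp [v, hk]
        · simp [v]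

/-- the path -/
noncomputable def ψ (t : ℝ) : I → ℝ :=
  |Real.sin (Real.pi * t)| • v (Sum.inl (Denumerable.ofNat (ℕ × ℤ) ⌊t⌋₊))

theorem ψ_mem (t : ℝ) : ψ t ∈ K :=
  ⟨_, ⟨abs_nonneg _, Real.abs_sin_le_one _⟩, _, rfl⟩

theorem abs_sin_le (t : ℝ) (n : ℤ) : |Real.sin (Real.pi * t)| ≤ Real.pi * |t - n| := by
  have h1 : |Real.sin (Real.pi * t)| = |Real.sin (Real.pi * t - n * Real.pi)| := by
    rw [Real.sin_sub_int_mul_pi, abs_mul, abs_zpow]
    simp
  rw [h1, show Real.pi * t - n * Real.pi = Real.pi * (t - n) by ring]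
  calc |Real.sin (Real.pi * (t - n))| ≤ |Real.pi * (t - n)| := Real.abs_sin_le_abs
    _ = Real.pi * |t - n| := by rw [abs_mul, abs_of_pos Real.pi_pos]

theorem lip_aux (c : ℕ → ℝ) (hc0 : ∀ n, 0 ≤ c n) (hc1 : ∀ n, c n ≤ 1) {s t : ℝ} (hst : s ≤ t) :
    |(|Real.sin (Real.pi * t)| * c ⌊t⌋₊) - (|Real.sin (Real.pi * s)| * c ⌊s⌋₊)| ≤
      Real.pi * |t - s| := by
  have hpi := Real.pi_pos
  by_cases h : ⌊s⌋₊ = ⌊t⌋₊
  · rw [h, ← sub_mul, abs_mul, abs_of_nonneg (hc0 _)]
    have h1 : |(|Real.sin (Real.pi * t)|) - (|Real.sin (Real.pi * s)|)| ≤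
        |Real.sin (Real.pi * t) - Real.sin (Real.pi * s)| := abs_abs_sub_abs_le _ _
    have h2 : |Real.sin (Real.pi * t) - Real.sin (Real.pi * s)| ≤ |Real.pi * t - Real.pi * s| := by
      have := Real.abs_sin_sub_sin_le (Real.pi * t) (Real.pi * s)
      exact this
    have h3 : |Real.pi * t - Real.pi * s| = Real.pi * |t - s| := by
      rw [← mul_sub, abs_mul, abs_of_pos hpi]
    calc _ ≤ |(|Real.sin (Real.pi * t)|) - (|Real.sin (Real.pi * s)|)| * 1 :=
          mul_le_mul_of_nonneg_left (hc1 _) (abs_nonneg _)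
      _ ≤ Real.pi * |t - s| := by rw [mul_one]; linarith
  · have hlt : ⌊s⌋₊ < ⌊t⌋₊ := lt_of_le_of_ne (Nat.floor_mono hst) h
    have h1 : s < (⌊t⌋₊ : ℝ) := (Nat.floor_lt' (Nat.ne_zero_of_lt hlt)).1 hlt
    have ht0 : 0 ≤ t := by
      by_contra hneg
      push Not at hneg
      have : ⌊t⌋₊ = 0 := Nat.floor_of_nonpos hneg.le
      omega
    have h2 : (⌊t⌋₊ : ℝ) ≤ t := Nat.floor_le ht0
    have h3 := abs_sin_le t (⌊t⌋₊ : ℤ)
    have h4 := abs_sin_le s (⌊t⌋₊ : ℤ)
    push_cast at h3 h4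
    rw [abs_of_nonneg (show (0 : ℝ) ≤ t - (⌊t⌋₊ : ℝ) by linarith)] at h3
    rw [abs_of_neg (show s - (⌊t⌋₊ : ℝ) < 0 by linarith)] at h4
    have h5 : 0 ≤ |Real.sin (Real.pi * t)| := abs_nonneg _
    have h6 : 0 ≤ |Real.sin (Real.pi * s)| := abs_nonneg _
    have h7 : |Real.sin (Real.pi * t)| * c ⌊t⌋₊ ≤ |Real.sin (Real.pi * t)| :=
      mul_le_of_le_one_right h5 (hc1 _)
    have h8 : |Real.sin (Real.pi * s)| * c ⌊s⌋₊ ≤ |Real.sin (Real.pi * s)| :=
      mul_le_of_le_one_right h6 (hc1 _)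
    have h9 : 0 ≤ |Real.sin (Real.pi * t)| * c ⌊t⌋₊ := mul_nonneg h5 (hc0 _)
    have h10 : 0 ≤ |Real.sin (Real.pi * s)| * c ⌊s⌋₊ := mul_nonneg h6 (hc0 _)
    rw [abs_of_nonneg (sub_nonneg.2 hst), abs_le]
    constructor <;> nlinarith

theorem continuous_ψ : Continuous ψ := by
  refine continuous_pi fun i => ?_
  let c : ℕ → ℝ := fun n => v (Sum.inl (Denumerable.ofNat (ℕ × ℤ) n)) i
  have h : LipschitzWith (Real.toNNReal Real.pi) fun t => ψ t i := by
    refine LipschitzWith.of_dist_le_mul fun t s => ?_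
    rw [Real.dist_eq, Real.dist_eq, Real.coe_toNNReal _ Real.pi_pos.le]
    rcases le_total s t with hst | hst
    · exact lip_aux c (fun _ => v_nonneg _ _) (fun _ => v_le_one _ _) hst
    · have := lip_aux c (fun _ => v_nonneg _ _) (fun _ => v_le_one _ _) hst
      rw [abs_sub_comm, abs_sub_comm t s]
      exact this
  exact h.continuous

theorem ψ_zero : ψ 0 = 0 := by
  simp [ψ]

theorem ψ_half (p : ℕ × ℤ) : ψ ((Encodable.encode p : ℝ) + 1 / 2) = v (Sum.inl p) := by
  have h1 : ⌊(Encodable.encode p : ℝ) + 1 / 2⌋₊ = Encodable.encode p := by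
    rw [Nat.floor_eq_iff (by positivity)]
    constructor <;> linarith
  have h2 : |Real.sin (Real.pi * ((Encodable.encode p : ℝ) + 1 / 2))| = 1 := by
    rw [show Real.pi * ((Encodable.encode p : ℝ) + 1 / 2) =
      Real.pi / 2 + (Encodable.encode p : ℕ) * Real.pi by ring, Real.sin_add_nat_mul_pi]
    simp
  rw [ψ, h1, h2, Denumerable.ofNat_encode, one_smul]

/-- **No countable base at `0`** -/
theorem no_base (κ : Type) (i₀ : κ) (φ : (κ → ℝ) → K) (hφ : ∀ x, (φ x : I → ℝ) = ψ (x i₀)) :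
    ¬ TopologicalSpace.MetrizableSpace (range φ) := by
  intro hmet
  let h : range φ → (I → ℝ) := fun z => ((z : K) : I → ℝ)
  have hind : Topology.IsInducing h :=
    Topology.IsInducing.subtypeVal.comp Topology.IsInducing.subtypeVal
  let z : range φ := ⟨φ 0, 0, rfl⟩
  have hz : h z = 0 := by
    change ((φ 0 : K) : I → ℝ) = 0
    rw [hφ]
    simp [ψ_zero]
  have hval : ∀ p : ℕ × ℤ, ∃ y : range φ, h y = v (Sum.inl p) := by
    intro p
    refine ⟨⟨φ (fun _ => (Encodable.encode p : ℝ) + 1 / 2), _, rfl⟩, ?_⟩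
    change ((φ _ : K) : I → ℝ) = _
    rw [hφ, ψ_half]
  obtain ⟨U, hU⟩ := (𝓝 z).exists_antitone_basis
  -- each coordinate neighbourhood contains some `U k`
  have h1 : ∀ y : ℝ, ∃ k : ℕ, U k ⊆ h ⁻¹' {f | f (Sum.inl y) < 1} := by
    intro y
    have h2 : h ⁻¹' {f | f (Sum.inl y) < 1} ∈ 𝓝 z := by
      refine (IsOpen.preimage hind.continuous
        (isOpen_lt (continuous_apply _) continuous_const)).mem_nhds ?_
      simp [hz]
    obtain ⟨k, _, hk⟩ := hU.1.mem_iff.1 h2
    exact ⟨k, hk⟩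
  choose k hk using h1
  obtain ⟨n, hn⟩ : ∃ n, {y | k y = n}.Infinite := by
    by_contra hcon
    push Not at hcon
    have huniv : (Set.univ : Set ℝ).Countable := by
      have : (Set.univ : Set ℝ) = ⋃ n, {y | k y = n} := by
        ext y; simp
      rw [this]
      exact countable_iUnion fun n => (hcon n).countable
    exact not_countable (α := ℝ) (countable_univ_iff.1 huniv)
  have hUn : U n ∈ 𝓝 z := hU.1.mem_of_mem trivial
  rw [hind.nhds_eq_comap, mem_comap] at hUn
  obtain ⟨W, hW, hWU⟩ := hUn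
  rw [hz, nhds_pi, Filter.mem_pi'] at hW
  obtain ⟨F, T, hT, hTW⟩ := hW
  -- a `y` whose coordinate is not in `F`
  obtain ⟨y, hyn, hyF⟩ : ∃ y, k y = n ∧ Sum.inl y ∉ F := by
    by_contra hcon
    push Not at hcon
    refine hn (Set.Finite.subset ((F.finite_toSet).preimage
      (f := (Sum.inl : ℝ → I)) (Sum.inl_injective.injOn)) ?_)
    intro y hy
    exact hcon y hy
  -- a large `m`
  have hlarge : ∀ i ∈ F, ∀ᶠ m : ℕ in atTop, v (Sum.inl (m, ⌊(m : ℝ) * y⌋)) i = 0 := by
    rintro (x | q) hi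
    · have hxy : x ≠ y := by
        rintro rfl
        exact hyF hi
      have hpos : 0 < |x - y| := abs_pos.2 (sub_ne_zero.2 hxy)
      filter_upwards [eventually_ge_atTop ⌈1 / |x - y|⌉₊] with m hm
      have h3 : 1 ≤ (m : ℝ) * |x - y| := by
        have := Nat.ceil_le.1 hm
        rwa [div_le_iff₀ hpos] at this
      have := floor_ne hxy h3
      simp [v, this]
    · filter_upwards [eventually_gt_atTop q.1] with m hm
      have : q ≠ (m, ⌊(m : ℝ) * y⌋) := by
        intro h
        rw [h] at hm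
        simp at hm
      simp [v, this]
  have hlarge' : ∀ᶠ m : ℕ in atTop, ∀ i ∈ F, v (Sum.inl (m, ⌊(m : ℝ) * y⌋)) i = 0 :=
    (Filter.eventually_all_finset F).2 hlarge
  obtain ⟨m, hm⟩ := hlarge'.exists
  obtain ⟨w, hw⟩ := hval (m, ⌊(m : ℝ) * y⌋)
  have hwW : h w ∈ W := by
    apply hTW
    intro i hi
    rw [hw, hm i hi]
    exact mem_of_mem_nhds (hT i)
  have hwU : w ∈ U n := hWU hwW
  rw [← hyn] at hwU
  have := hk y hwU
  simp only [mem_preimage, mem_ofPred_eq, hw] at this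
  simp [v] at this

/-- There is a compact Hausdorff space `K` of countable tightness such that for every nonempty
index set `κ` (in particular for `κ = 1`) some continuous map `φ : ℝ^κ → K` has a non-metrizable
image. -/
theorem result : ∃ (K : Type) (_ : TopologicalSpace K) (_ : CompactSpace K) (_ : T2Space K),
    (∀ (A : Set K) (x : K), x ∈ closure A → ∃ C : Set K, C ⊆ A ∧ C.Countable ∧ x ∈ closure C) ∧
    ∀ (κ : Type) [Nonempty κ], ∃ φ : (κ → ℝ) → K, Continuous φ ∧
      ¬ TopologicalSpace.MetrizableSpace (Set.range φ) := by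
  refine ⟨K, inferInstance, isCompact_iff_compactSpace.1 isCompact_K, inferInstance, ?_, ?_⟩
  · intro A x hx
    rw [closure_subtype] at hx
    obtain ⟨C, hC1, hC2, hC3⟩ := tight (A := (fun a : K => (a : I → ℝ)) '' A) (by
      rintro _ ⟨a, _, rfl⟩; exact a.2) hx
    refine ⟨(fun a : K => (a : I → ℝ)) ⁻¹' C, ?_, ?_, ?_⟩
    · intro a ha
      obtain ⟨b, hb, hab⟩ := hC1 ha
      rwa [← Subtype.ext (show (b : I → ℝ) = a from hab)]
    · exact hC2.preimage Subtype.val_injective
    · rw [closure_subtype]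
      have : (fun a : K => (a : I → ℝ)) '' ((fun a : K => (a : I → ℝ)) ⁻¹' C) = C := by
        rw [image_preimage_eq_iff]
        intro g hg
        obtain ⟨b, _, hab⟩ := hC1 hg
        exact ⟨b, hab⟩
      rw [this]
      exact hC3
  · intro κ ⟨i₀⟩
    refine ⟨fun x => ⟨ψ (x i₀), ψ_mem _⟩, ?_, ?_⟩
    · exact (continuous_ψ.comp (continuous_apply i₀)).subtype_mk _
    · exact no_base κ i₀ _ (fun x => rfl)

end Pool.Agent.Results.MP_ed4848_gt.NotMetrizable
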